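import Pool.Agent.H98.RFT.Basic
import Pool.Agent.H98.RFT.Targets3
import Pool.Agent.H79.RFZ.PCUT

/-!
# Row CUT1 of rft_modules: upper bound for the tension in elongated rectangles
-/

set_option autoImplicit false

noncomputable section

open Finset
open Pool.Agent.H98.RFC Pool.Agent.H98.RFZ Pool.Agent.H98.RFT

namespace Pool.Agent.H61.RFT

open Pool.Agent.H79.RFZ (gdot_diff fdet_diff nrm_pos Jt_nonneg)

/-- a step along an open edge -/
lemma step_box {R : ℕ} {W : Finset Site} {ω : Finset (Site × Site)} (hω : ω ⊆ prs R W) {a b : Site}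
    (h : opn ω a b) : a - b ∈ box R ∨ b - a ∈ box R := by
  rcases h with h | h
  · right
    have := hω h
    unfold prs at this
    exact (mem_filter.1 this).2.2
  · left
    have := hω h
    unfold prs at this
    exact (mem_filter.1 this).2.2

lemma step_g {R : ℕ} {W : Finset Site} {ω : Finset (Site × Site)} (hω : ω ⊆ prs R W) (p : Site)
    {a b : Site} (h : opn ω a b) : |(gdot p b : ℝ)| ≤ |(gdot p a : ℝ)| + 2 * R * nrm p := by
  rcases step_box hω h with h | h
  · exact (gdot_diff p a b h).2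
  · exact (gdot_diff p b a h).1

/-- many steps -/
lemma steps_g {R : ℕ} {W : Finset Site} {ω : Finset (Site × Site)} (hω : ω ⊆ prs R W) (p : Site)
    {D : Set Site} {k : ℕ} {x : ℕ → Site} (hx : OPath D ω k x) (i : ℕ) : ∀ m : ℕ, i + m ≤ k →
    |(gdot p (x (i + m)) : ℝ)| ≤ |(gdot p (x i) : ℝ)| + 2 * R * nrm p * m := by
  intro m
  induction m with
  | zero => intro _; simp
  | succ m ih =>
    intro h
    have h1 := ih (by omega)
    have h2 := step_g hω p (hx.2 (i + m) (by omega))
    have e : i + (m + 1) = i + m + 1 := by ring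
    rw [e]
    push_cast
    linarith

/-- the part of a path after the last site with the property `P` -/
lemma last_P (P : ℕ → Prop) {j : ℕ} (h0 : P 0) (hj : 1 ≤ j) :
    ∃ i, i < j ∧ P i ∧ ∀ m, i < m → m < j → ¬ P m := by
  classical
  refine ⟨Nat.findGreatest P (j - 1), ?_, Nat.findGreatest_spec (Nat.zero_le _) h0, ?_⟩
  · have := Nat.findGreatest_le (P := P) (j - 1)
    omega
  · intro m h1 h2
    exact Nat.findGreatest_is_greatest h1 (by omega)

/-- deterministic part -/
lemma det_part (hRCT : P_RCT) {R : ℕ} (hR : 1 ≤ R) {p : Site} {K w : ℝ} (hp : p ≠ 0) (hK : 1 ≤ K)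
    (hw : (20 * R + 20 : ℝ) ≤ w) {D : Set Site} {ω : Finset (Site × Site)}
    (hω : ω ⊆ prs R (rect p K (4 * w) \ rect p K w)) {N : ℕ} (hN : (N : ℝ) ≤ K * w / (4 * R))
    (M : Finset Site) (hM : ∀ x, x ∈ rect p K (4 * w) \ rect p K w →
      |(fdet p x : ℝ)| ≤ 3 * w * nrm p → |(gdot p x : ℝ)| ≤ 3 * K * w * nrm p →
      (2 * w * nrm p < |(fdet p x : ℝ)| ∨ 2 * K * w * nrm p < |(gdot p x : ℝ)|) → x ∈ M)
    (hTh : Th (rect p K w) (rect p K (4 * w)) M N D ω) : SPT p K w D ω := by
  classical
  have hn := nrm_pos hp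
  have hR1 : (1 : ℝ) ≤ R := by exact_mod_cast hR
  have hw0 : 0 < w := by linarith
  have hw4 : (0 : ℝ) ≤ 4 * w := by linarith
  obtain ⟨a, haΛ, ℓ, hℓ, k, x, hx, hx0, hxk, hcard⟩ := hTh
  set n := nrm p with hn'
  set V := rect p K w with hV
  set Λ := rect p K (4 * w) with hΛ
  have hVm : ∀ x, x ∈ V ↔ |(fdet p x : ℝ)| ≤ w * n ∧ |(gdot p x : ℝ)| ≤ K * w * n :=
    (hRCT p K w hp hK hw0.le).1
  have hΛm : ∀ x, x ∈ Λ ↔ |(fdet p x : ℝ)| ≤ 4 * w * n ∧ |(gdot p x : ℝ)| ≤ K * (4 * w) * n :=
    (hRCT p K (4 * w) hp hK hw4).1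
  have hwn : 0 < w * n := mul_pos hw0 hn
  have hKwn : w * n ≤ K * w * n := by nlinarith
  have hKw : w ≤ K * w := by nlinarith
  have hKw0 : 0 < K * w := by linarith
  have h0 := (hVm (x 0)).1 hx0
  -- the first site outside the middle
  have hex : ∃ j, 3 * w * n < |(fdet p (x j) : ℝ)| ∨ 3 * K * w * n < |(gdot p (x j) : ℝ)| := by
    refine ⟨k, ?_⟩
    by_contra hcon
    push Not at hcon
    apply haΛ
    rw [← hxk, hΛm]
    constructor
    · linarith [hcon.1]
    · linarith [hcon.2]
  set j := Nat.find hex with hj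
  have hjs := Nat.find_spec hex
  have hjm : ∀ i, i < j → |(fdet p (x i) : ℝ)| ≤ 3 * w * n ∧ |(gdot p (x i) : ℝ)| ≤ 3 * K * w * n := by
    intro i hi
    have := Nat.find_min hex hi
    push Not at this
    exact this
  have hjk : j ≤ k := by
    refine Nat.find_min' hex ?_
    by_contra hcon
    push Not at hcon
    apply haΛ
    rw [← hxk, hΛm]
    constructor
    · linarith [hcon.1]
    · linarith [hcon.2]
  have hj1 : 1 ≤ j := by
    by_contra hcon
    have : j = 0 := by omega
    rw [← hj, this] at hjs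
    rcases hjs with h | h
    · linarith [h0.1]
    · linarith [h0.2]
  -- counting
  have hcnt : ∀ i, i < j → (∀ m, i < m → m < j →
      (2 * w * n < |(fdet p (x m) : ℝ)| ∨ 2 * K * w * n < |(gdot p (x m) : ℝ)|)) →
      j - i - 1 < N := by
    intro i hi hm
    refine lt_of_le_of_lt ?_ hℓ
    refine le_trans ?_ hcard
    have hsub : Ioo i j ⊆ (range k).filter (fun i => x i ∈ M) := by
      intro m hm'
      rw [mem_Ioo] at hm'
      rw [mem_filter, mem_range]
      refine ⟨by omega, hM _ ?_ (hjm m hm'.2).1 (hjm m hm'.2).2 (hm m hm'.1 hm'.2)⟩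
      rw [mem_sdiff]
      constructor
      · rw [hΛm]
        constructor
        · linarith [(hjm m hm'.2).1]
        · linarith [(hjm m hm'.2).2]
      · intro hmV
        have h1 := (hVm _).1 hmV
        rcases hm m hm'.1 hm'.2 with h | h
        · linarith [h1.1]
        · linarith [h1.2]
    have := card_le_card hsub
    rw [Nat.card_Ioo] at this
    exact this
  have hN4 : (N : ℝ) * (4 * R) ≤ K * w := by
    rwa [le_div_iff₀ (by linarith)] at hN
  by_cases hg : 3 * K * w * n < |(gdot p (x j) : ℝ)|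
  · exfalso
    obtain ⟨i, hij, hPi, hPm⟩ := last_P (fun i => |(gdot p (x i) : ℝ)| ≤ 2 * K * w * n) (j := j)
      (h0.2.trans (by linarith)) hj1
    have h1 := hcnt i hij (fun m hm1 hm2 => Or.inr (not_le.1 (hPm m hm1 hm2)))
    have h2 := steps_g hω p hx i (j - i) (by omega)
    have e : i + (j - i) = j := by omega
    rw [e] at h2
    have h3 : K * w * n < 2 * R * n * ((j - i : ℕ) : ℝ) := by linarith
    have h4 : K * w < 2 * R * ((j - i : ℕ) : ℝ) := by
      have : K * w * n < 2 * R * ((j - i : ℕ) : ℝ) * n := by linarith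
      exact lt_of_mul_lt_mul_right this hn.le
    have h5 : ((j - i : ℕ) : ℝ) ≤ N := by
      have : j - i ≤ N := by omega
      exact_mod_cast this
    have h6 : 2 * R * ((j - i : ℕ) : ℝ) ≤ 2 * R * N := by
      refine mul_le_mul_of_nonneg_left h5 (by linarith)
    have h7 : (0 : ℝ) ≤ R * N := by positivity
    linarith
  · push Not at hg
    have hf : 3 * w * n < |(fdet p (x j) : ℝ)| := by
      rcases hjs with h | h
      · exact h
      · exact absurd h (not_lt.2 hg)
    obtain ⟨i, hij, hPi, hPm⟩ := last_P (fun i => |(fdet p (x i) : ℝ)| ≤ 2 * w * n) (j := j)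
      (h0.1.trans (by linarith)) hj1
    have h1 := hcnt i hij (fun m hm1 hm2 => Or.inl (not_le.1 (hPm m hm1 hm2)))
    refine ⟨j - i, fun m => x (i + m), ⟨?_, ?_⟩, ?_, hPi, ?_, ?_⟩
    · intro m hm
      exact hx.1 _ (by omega)
    · intro m hm
      exact hx.2 (i + m) (by omega)
    · intro m hm
      rcases Nat.lt_or_ge (i + m) j with h | h
      · exact (hjm _ h).2
      · have e : i + m = j := by omega
        simp only [e]
        exact hg
    · have e : i + (j - i) = j := by omega
      simp only [e]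
      exact hf.le
    · have h5 : ((j - i : ℕ) : ℝ) ≤ N := by
        have : j - i ≤ N := by omega
        exact_mod_cast this
      have h7 : (N : ℝ) * 4 ≤ N * (4 * R) := by
        refine mul_le_mul_of_nonneg_left (by linarith) (by positivity)
      linarith

/-- no range -/
lemma no_range {W : Finset Site} {ω : Finset (Site × Site)} (hω : ω ⊆ prs 0 W) {a b : Site}
    (h : opn ω a b) : b = a := by
  have hb : ∀ z : Site, z ∈ box 0 → z = 0 := by
    intro z hz
    unfold Pool.Agent.H98.RFC.box at hz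
    rw [mem_product, mem_Icc, mem_Icc] at hz
    obtain ⟨⟨h1, h2⟩, h3, h4⟩ := hz
    refine Prod.ext ?_ ?_
    · simp only [Nat.cast_zero, neg_zero] at h1 h2
      exact le_antisymm h2 h1
    · simp only [Nat.cast_zero, neg_zero] at h3 h4
      exact le_antisymm h4 h3
  rcases step_box hω h with h | h
  · exact (sub_eq_zero.1 (hb _ h)).symm
  · exact sub_eq_zero.1 (hb _ h)

theorem pf_CUT1 (hCUA : D_CUA) (hRCT : P_RCT) : P_CUTT := by
  classical
  intro R J hJ h T hT p K w hp hK hw
  have hn := nrm_pos hp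
  have hR0 : (0 : ℝ) ≤ R := Nat.cast_nonneg R
  have hw0 : 0 < w := by linarith
  have hJt := Jt_nonneg R J hJ
  have hKw : w ≤ K * w := by nlinarith
  have hKw0 : 0 < K * w := by linarith
  have hVΛ : rect p K w ⊆ rect p K (4 * w) := (hRCT p K w hp hK hw0.le).2.1 _ (by linarith)
  rcases Nat.eq_zero_or_pos R with hR | hR
  · -- no range
    subst hR
    have h1 : QP 0 J h T (rect p K (4 * w) \ rect p K w)
        (fun D ω => ¬ Cn (rect p K w) (rect p K (4 * w)) D ω) = 1 := by
      refine le_antisymm (QP_le_one hJ h hT _ _) ?_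
      rw [← QP_true (R := 0) J h T (rect p K (4 * w) \ rect p K w)]
      refine QP_mono hJ h hT _ _ _ ?_
      rintro D ω - hω - -
      rintro ⟨k, x, hx, hx0, hxk⟩
      have : ∀ i, i ≤ k → x i = x 0 := by
        intro i
        induction i with
        | zero => intro _; rfl
        | succ i ih =>
          intro hi
          rw [no_range hω (hx.2 i (by omega)), ih (by omega)]
      rw [this k le_rfl] at hxk
      exact hxk (hVΛ hx0)
    unfold tenT
    rw [h1, Real.log_one]
    simp only [mul_zero, neg_zero, Nat.cast_zero, zero_mul, zero_div, zero_add]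
    have h2 := QP_nonneg hJ h hT (rect p K (4 * w) \ rect p K w) (SPT p K w)
    refine mul_nonneg ?_ h2
    exact add_nonneg (mul_nonneg (mul_nonneg (by norm_num) hJt) (Nat.cast_nonneg _)) (by linarith)
  · have hR1 : (1 : ℝ) ≤ R := by exact_mod_cast hR
    set W := rect p K (4 * w) \ rect p K w with hW
    set M := W.filter (fun x =>
      |(fdet p x : ℝ)| ≤ 3 * w * nrm p ∧ |(gdot p x : ℝ)| ≤ 3 * K * w * nrm p ∧
      (2 * w * nrm p < |(fdet p x : ℝ)| ∨ 2 * K * w * nrm p < |(gdot p x : ℝ)|)) with hM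
    set N : ℕ := ⌊K * w / (4 * R)⌋₊ with hN
    have hfl : (N : ℝ) ≤ K * w / (4 * R) := Nat.floor_le (by positivity)
    have hfl2 : K * w / (4 * R) < N + 1 := Nat.lt_floor_add_one _
    have hN1 : 1 ≤ N := by
      refine Nat.le_floor ?_
      rw [Nat.cast_one, le_div_iff₀ (by linarith)]
      linarith
    have hN1' : (1 : ℝ) ≤ N := by exact_mod_cast hN1
    have h1 := hCUA R J hJ h T hT (rect p K w) (rect p K (4 * w)) M hVΛ (filter_subset _ _) N hN1
    have h2 : QP R J h T W (Th (rect p K w) (rect p K (4 * w)) M N) ≤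
        QP R J h T W (SPT p K w) := by
      refine QP_mono hJ h hT _ _ _ ?_
      rintro D ω - hω - hTh
      refine det_part hRCT hR hp hK hw hω hfl M ?_ hTh
      intro x hx h1 h2 h3
      rw [hM, mem_filter]
      exact ⟨hx, h1, h2, h3⟩
    have h3 : 8 * Jt R J / N ≤ 64 * R * Jt R J / (K * w) := by
      have h4 : K * w ≤ 8 * R * N := by
        have h5 : K * w < (N + 1) * (4 * R) := by
          rwa [div_lt_iff₀ (by linarith)] at hfl2
        have h6 : (4 : ℝ) * R ≤ 4 * R * N := by nlinarith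
        linarith
      rw [div_le_div_iff₀ (by linarith) hKw0]
      have := mul_le_mul_of_nonneg_left h4 (by positivity : (0 : ℝ) ≤ 8 * Jt R J)
      linarith
    have h4 : 0 ≤ ∑ x ∈ M, QP R J h T W (Cv (rect p K w) x) :=
      sum_nonneg fun x _ => QP_nonneg hJ h hT _ _
    refine h1.trans (add_le_add ?_ ?_)
    · refine (mul_le_mul_of_nonneg_right h3 h4).trans (le_of_eq ?_)
      rw [hM]
    · refine mul_le_mul_of_nonneg_left h2 ?_
      exact add_nonneg (mul_nonneg (mul_nonneg (by norm_num) hJt) (Nat.cast_nonneg _))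
        (by linarith)

end Pool.Agent.H61.RFT
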